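import Pool.Agent.K7.H4.LT.Driver

/-!
# The Lieb-Thirring kinetic inequality for functions of fixed angular momentum

Let `d ≥ 2`, `m ≥ 0`, and let `u_1, …, u_N` be an orthonormal system on `ℝ^d × ℝ^m` consisting of
functions of angular momentum `l ≥ 1` with respect to the rotations of the first `d` variables, that
is `u_n(y, z) = ∑_j G_j(|y|, z) P_j(y)` with harmonic homogeneous polynomials `P_j` of degree `l` and
arbitrary coefficients `G_j`. Then the kinetic inequality holds with the semiclassical constant of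
dimension `d + m`. The same is true for windows of angular momenta, and for `l = 0` if `d ≥ 6`.

Proof. For each direction `ω` of the unit sphere the functions `r^((d-1)/2) u_n(r ω, z)` on the half
space `r > 0` of `ℝ^(1+m)` have a Gram matrix at most `g / σ`, where `g` is the dimension of the space
of the spherical harmonics and `σ` the surface of the sphere (addition theorem). The inequality of
the starting file `AllDimensions` in dimension `1 + m` (constant `(3/4)^(1/(m+1)) K^cl`), the
centrifugal energy, the inequality of the means, and integration over `ω` give the kinetic inequality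
with an explicit constant, which is then compared with the semiclassical one.
-/

set_option autoImplicit false

open MeasureTheory Set MvPolynomial

namespace Pool.Agent.Results.MP_cfe56d_mp.FixedAngularMomentum

/-- The space `ℝ^d × ℝ^m`. -/
abbrev Space (d m : ℕ) : Type := EuclideanSpace ℝ (Fin d) × (Fin m → ℝ)

/-- `|∇u|²`, the sum of the squares of the absolute values of the `d + m` partial derivatives. -/
noncomputable def gradSq {d m : ℕ} (u : Space d m → ℂ) (x : Space d m) : ℝ :=
  (∑ i : Fin d, ‖fderiv ℝ u x (EuclideanSpace.single i 1, 0)‖ ^ 2) +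
    ∑ j : Fin m, ‖fderiv ℝ u x (0, Pi.single j 1)‖ ^ 2

/-- `P` is a harmonic homogeneous polynomial of degree `l` in `d` variables. -/
def IsSolidHarmonic {d : ℕ} (l : ℕ) (P : MvPolynomial (Fin d) ℝ) : Prop :=
  P.IsHomogeneous l ∧ ∑ i, pderiv i (pderiv i P) = 0

/-- The function `u` on `ℝ^d × ℝ^m` has angular momenta between `l` and `L` with respect to the
rotations of the first `d` variables: `u(y, z) = ∑_j G_j(|y|, z) P_j(y)` for `y ≠ 0`, where the `P_j`
are harmonic homogeneous polynomials with degrees between `l` and `L` and the `G_j` are continuously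
differentiable functions of `r > 0` and `z`. -/
def HasAngularMomenta {d m : ℕ} (l L : ℕ) (u : Space d m → ℂ) : Prop :=
  ∃ (g : ℕ) (deg : Fin g → ℕ) (P : Fin g → MvPolynomial (Fin d) ℝ)
    (G : Fin g → ℝ × (Fin m → ℝ) → ℂ),
    (∀ j, l ≤ deg j ∧ deg j ≤ L ∧ IsSolidHarmonic (deg j) (P j)) ∧
    (∀ j, ContDiffOn ℝ 1 (G j) {q | 0 < q.1}) ∧
    ∀ x, x.1 ≠ 0 → u x = ∑ j, G j (‖x.1‖, x.2) * ((eval (fun i => x.1 i) (P j) : ℝ) : ℂ)

/-- Orthonormal systems of finite kinetic energy with angular momenta between `l` and `L`. -/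
structure AngularSystem {d m N : ℕ} (l L : ℕ) (u : Fin N → Space d m → ℂ) : Prop where
  momenta : ∀ n, HasAngularMomenta l L (u n)
  square : ∀ n, Integrable (fun x => ‖u n x‖ ^ 2)
  energy : ∀ n, Integrable (gradSq (u n))
  orthonormal : ∀ n n', ∫ x, (starRingEnd ℂ) (u n x) * u n' x = if n = n' then 1 else 0

/-- The kinetic inequality with the constant `K` for the orthonormal systems on `ℝ^d × ℝ^m` with
angular momenta between `l` and `L`; `ρ ^ (1 + 2 / (d + m))`, `ρ = ∑ |u_n|²`, is integrable. -/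
def AngularBound (d m l L : ℕ) (K : ℝ) : Prop :=
  ∀ (N : ℕ) (u : Fin N → Space d m → ℂ), AngularSystem l L u →
    Integrable (fun x => (∑ n, ‖u n x‖ ^ 2) ^ (1 + 2 / ((d + m : ℕ) : ℝ))) ∧
    K * ∫ x, (∑ n, ‖u n x‖ ^ 2) ^ (1 + 2 / ((d + m : ℕ) : ℝ)) ≤ ∑ n, ∫ x, gradSq (u n) x

/-- The semiclassical constant `d / (d + 2) * (2π)² / ω_d ^ (2 / d)`. -/
noncomputable def Kcl (d : ℕ) : ℝ :=
  d / (d + 2) * ((2 * Real.pi) ^ 2 /
    (volume (Metric.ball (0 : EuclideanSpace ℝ (Fin d)) 1)).toReal ^ ((2 : ℝ) / d))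

/-- **The kinetic inequality with the semiclassical constant for functions of fixed angular
momentum.** Let `d ≥ 2` and `l ≤ L`. For the orthonormal systems on `ℝ^d × ℝ^m` whose angular momenta
with respect to the rotations of the first `d` variables are between `l` and `L` the kinetic
inequality holds with the semiclassical constant of dimension `d + m`, if `L = l ≥ 1`, or if `l ≥ 1`
and `(L + (d - 1) / 2)^(d - 1) ≤ (5 / 2) (l + (d - 3) / 2)^(d - 1)`, or if `L = l = 0` and
`d ≥ 6`. -/
theorem result (d m l L : ℕ) (hd : 2 ≤ d) (hlL : l ≤ L)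
    (h : (1 ≤ l ∧ L = l) ∨
      (1 ≤ l ∧ ((L : ℝ) + ((d : ℝ) - 1) / 2) ^ (d - 1) ≤
        5 / 2 * ((l : ℝ) + ((d : ℝ) - 3) / 2) ^ (d - 1)) ∨
      (L = 0 ∧ 6 ≤ d)) :
    AngularBound d m l L (Kcl (d + m)) := by
  obtain ⟨k, rfl⟩ : ∃ k, d = k + 1 := ⟨d - 1, by omega⟩
  intro N u hu
  have hsys : K7.H4.LT.MomSys (k := k) (m := m) l (L - l + 1) u := by
    refine ⟨fun i => ?_, hu.square, hu.energy, hu.orthonormal⟩
    obtain ⟨g, deg, P, G, h1, h2, h3⟩ := hu.momenta i
    refine ⟨g, P, fun j => deg j - l, fun j v => G j (v 0, Fin.tail v), fun j => ?_, fun j => ?_,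
      fun x hx => ?_⟩
    · obtain ⟨h4, h5, h6⟩ := h1 j
      show deg j - l < L - l + 1 ∧ P j ∈ K7.H4.LT.HH (k + 1) (l + (deg j - l))
      refine ⟨by omega, ?_⟩
      rw [Nat.add_sub_cancel' h4]
      exact h6
    · refine (h2 j).comp ?_ fun v hv => hv
      have h4 : ContDiff ℝ 1 (fun v : Fin (m + 1) → ℝ => v 0) := contDiff_apply ℝ ℝ 0
      have h5 : ContDiff ℝ 1 (fun v : Fin (m + 1) → ℝ => (Fin.tail v : Fin m → ℝ)) :=
        contDiff_pi.2 fun i => contDiff_apply ℝ ℝ i.succ
      exact (h4.prodMk h5).contDiffOn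
    · rw [h3 x hx]
      refine Finset.sum_congr rfl fun j _ => ?_
      have h4 : (K7.H4.LT.kap x 0, Fin.tail (K7.H4.LT.kap x)) = (‖x.1‖, x.2) := by
        unfold K7.H4.LT.kap
        rw [Fin.cons_zero, Fin.tail_cons]
      show _ = G j (K7.H4.LT.kap x 0, Fin.tail (K7.H4.LT.kap x)) * _
      rw [h4]
      rfl
  have hK : Kcl (k + 1 + m) = R117.RL.Kcl (k + m + 1) := by
    rw [show k + 1 + m = k + m + 1 by ring]
    rfl
  rw [hK, show k + 1 + m = k + m + 1 by ring]
  rcases h with ⟨h1, rfl⟩ | ⟨h1, h2⟩ | ⟨rfl, h2⟩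
  · rw [Nat.sub_self] at hsys
    exact K7.H4.LT.driver_single (by omega) h1 hsys
  · refine K7.H4.LT.driver_window (by omega) h1 (by omega) ?_ hsys
    rw [Nat.add_sub_cancel] at h2
    have e1 : (l : ℝ) + ((L - l + 1 : ℕ) : ℝ) - 1 + (k : ℝ) / 2 =
        (L : ℝ) + (((k + 1 : ℕ) : ℝ) - 1) / 2 := by
      push_cast [Nat.cast_sub hlL]
      ring
    have e2 : (l : ℝ) - 1 + (k : ℝ) / 2 = (l : ℝ) + (((k + 1 : ℕ) : ℝ) - 3) / 2 := by
      push_cast
      ring
    rw [e1, e2]
    exact h2
  · obtain rfl : l = 0 := by omega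
    exact K7.H4.LT.driver_zero (by omega) hsys

end Pool.Agent.Results.MP_cfe56d_mp.FixedAngularMomentum
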