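import Pool.Agent.K7.H84.AM.Wide

/-!
# The Lieb-Thirring kinetic inequality in high dimension, angular momenta at most `κ d`

For orthonormal systems of functions on `ℝ^d` all of whose angular momenta are at most `κ d`, that is
`u_n(x) = ∑_j G_{nj}(|x|) P_{nj}(x)` with solid harmonics `P_{nj}` of degrees at most `κ d` and arbitrary
coefficients `G_{nj}`, the kinetic inequality holds for large `d` with every constant below `R(κ) K_d^cl`, where
`R(κ) = e² (κ + 1/2)² κ^(2κ) / (1 + κ)^(2+2κ) > 1`. For `κ = 0` this is the factor `e² / 4` of the radial systems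
(starting library). With the semiclassical constant the inequality holds for all angular momenta up to
`d^(3/2) / (5 √(log d))`, for large `d`.

Method: interpolation with centrifugal weights on the spheres and the sharp one-dimensional inequality for matrices
give the inequality with an explicit constant for every set of angular momenta (as in `ThinAngularMomenta`). In high
dimension the dimensions of the spaces of spherical harmonics are much smaller than the corresponding semiclassical
volumes: the quotient is `∏ (1 - s² / μ²)`, `μ = l + (d - 2) / 2`, which is exponentially small for `l ≤ κ d` and at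
most `exp(-d³ / (24 μ²))`, up to lower order terms.
-/

open MeasureTheory Set Filter

namespace Pool.Agent.Results.MP_cfe56d_mp.HighDimension

open Pool.Agent.K7.H84.AM Pool.Agent.R117.RL

/-- `R(κ) = e² (κ + 1/2)² κ^(2κ) / (1 + κ)^(2+2κ)`; `R(0) = e² / 4`. -/
noncomputable def R (κ : ℝ) : ℝ :=
  Real.exp 2 * (κ + 1 / 2) ^ 2 * κ ^ (2 * κ) / (1 + κ) ^ (2 + 2 * κ)

theorem R_eq {κ : ℝ} (hκ : 0 ≤ κ) : R κ = Real.exp (-gR κ) := by
  have h1 : 0 < κ + 1 / 2 := by linarith
  have h2 : 0 < 1 + κ := by linarith
  have e1 : (κ + 1 / 2) ^ 2 = Real.exp (2 * Real.log (κ + 1 / 2)) := by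
    rw [mul_comm, ← Real.rpow_def_of_pos h1]
    norm_num
  have e2 : κ ^ (2 * κ) = Real.exp (2 * (κ * Real.log κ)) := by
    rcases hκ.eq_or_lt with h0 | h0
    · rw [← h0]
      simp
    · rw [Real.rpow_def_of_pos h0]
      congr 1
      ring
  have e3 : (1 + κ) ^ (2 + 2 * κ) = Real.exp (2 * ((1 + κ) * Real.log (1 + κ))) := by
    rw [Real.rpow_def_of_pos h2]
    congr 1
    ring
  unfold R gR
  rw [e1, e2, e3, ← Real.exp_add, ← Real.exp_add, ← Real.exp_sub]
  congr 1
  ring

/-- **The kinetic inequality in high dimension, with angular momenta at most `κ d`.**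
`AngularSystem Λ u`: the functions `u_n` on `ℝ^d` are finite sums of terms `G_j(|x|) P_j(x)` with solid
harmonics `P_j` of degrees in `Λ` and `G_j ∈ C¹(0, ∞)`, they are orthonormal and have finite kinetic
energy. `AngularBound d Λ K`: for all such systems `∫ ρ^(1+2/d)` converges and
`K ∫ ρ^(1+2/d) ≤ ∑ ∫ |∇u_n|²`, `ρ = ∑ |u_n|²`. `Kcl d` is the semiclassical constant. -/
theorem result :
    -- (1) angular momenta at most `κ d`: every constant below `R(κ) K_d^cl`, for large `d`
    (∀ κ c : ℝ, 0 ≤ κ → c < R κ →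
      ∀ᶠ d : ℕ in atTop, ∀ L : ℕ, (L : ℝ) ≤ κ * d → AngularBound d {l | l ≤ L} (c * Kcl d)) ∧
    (∀ κ : ℝ, 0 ≤ κ → 1 < R κ) ∧
    -- (2) angular momenta at most `d^(3/2) / (5 √(log d))`: the semiclassical constant, for large `d`
    (∀ᶠ d : ℕ in atTop, ∀ L : ℕ, (L : ℝ) ≤ (d : ℝ) ^ (3 / 2 : ℝ) / (5 * √(Real.log d)) →
      AngularBound d {l | l ≤ L} (Kcl d)) := by
  refine ⟨fun κ c hκ hc => high hκ (by rwa [← R_eq hκ]), fun κ hκ => ?_, wide⟩
  rw [R_eq hκ, Real.one_lt_exp_iff]
  linarith [gR_neg hκ]

end Pool.Agent.Results.MP_cfe56d_mp.HighDimension
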