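import Pool.Agent.K7.H21.LT.Scale

/-!
# The Lieb-Thirring kinetic inequality for systems with gaps in the planar angular momenta

For orthonormal systems on `ℝ^d`, `d ≥ 2`, whose angular momenta in one coordinate plane lie in a set
`M` of nonzero integers with gaps, the kinetic inequality holds with a constant which is at least the
semiclassical one: for instance if `M` does not contain two consecutive integers (constant
`(4/3)^(1/d) K_d^cl`), in particular for the systems which are odd under the rotation by `π` in a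
plane, or if `M` has at most `g` elements in every interval of `q` consecutive integers,
`2 g < √3 q`, and `|k|` is large on `M`.

Proof. The functions `e^(i a φ) u_n`, `a ∈ A` (`φ` the angle in the plane), have the Gram matrix at
most `G / 2` for real combinations, their density is `|A| ρ`, and the Hardy inequality bounds the
additional energy `a² ∫ ρ / r²`. The inequality of the starting file `AllDimensions`, with the sharp
one-dimensional constant, is applied to these functions, after a dilation of the plane.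
-/

set_option autoImplicit false

open MeasureTheory

namespace Pool.Agent.Results.MP_cfe56d_mp.PlanarMomenta

/-- `ℝ^d`, `d = m + 2`, without the axis `x_0 = x_1 = 0`. -/
def OffAxis (m : ℕ) : Set (Fin (m + 2) → ℝ) := {x | 0 < x 0 ^ 2 + x 1 ^ 2}

/-- The rotation by the angle `θ` in the plane of the coordinates `x_0`, `x_1`. -/
noncomputable def rot {m : ℕ} (θ : ℝ) (x : Fin (m + 2) → ℝ) : Fin (m + 2) → ℝ :=
  fun i => if i = 0 then Real.cos θ * x 0 - Real.sin θ * x 1
    else if i = 1 then Real.sin θ * x 0 + Real.cos θ * x 1 else x i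

/-- The partial derivative `∂_k u`. -/
noncomputable def pder {m : ℕ} (k : Fin (m + 2)) (u : (Fin (m + 2) → ℝ) → ℂ)
    (x : Fin (m + 2) → ℝ) : ℂ := fderiv ℝ u x (Pi.single k 1)

/-- The angular momenta of `u` in the plane of `x_0`, `x_1` belong to `M`: on every circle around the
axis the Fourier coefficients of `u` of index `k ∉ M` vanish. -/
def HasMomentaIn {m : ℕ} (M : Set ℤ) (u : (Fin (m + 2) → ℝ) → ℂ) : Prop :=
  ∀ x ∈ OffAxis m, ∀ k : ℤ, k ∉ M →
    ∫ θ in (0 : ℝ)..(2 * Real.pi), Complex.exp (-(k * θ * Complex.I)) * u (rot θ x) = 0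

/-- `L²`-orthonormal systems of functions on `ℝ^(m+2)` which are continuously differentiable off the
axis and have finite kinetic energy. -/
structure System {m N : ℕ} (u : Fin N → (Fin (m + 2) → ℝ) → ℂ) : Prop where
  smooth : ∀ n, ContDiffOn ℝ 1 (u n) (OffAxis m)
  sq : ∀ n, Integrable fun x => ‖u n x‖ ^ 2
  grad_sq : ∀ n k, Integrable fun x => ‖pder k (u n) x‖ ^ 2
  orthonormal : ∀ n n', ∫ x, (starRingEnd ℂ) (u n x) * u n' x = if n = n' then 1 else 0

/-- The kinetic inequality with the constant `K` for the system `u` in dimension `d = m + 2`: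
`K ∫ ρ^(1 + 2/d) ≤ ∑ ∫ |∇u_n|²`, `ρ = ∑ |u_n|²`, and `ρ^(1 + 2/d)` is integrable. -/
def Inequality {m N : ℕ} (u : Fin N → (Fin (m + 2) → ℝ) → ℂ) (K : ℝ) : Prop :=
  Integrable (fun x => (∑ n, ‖u n x‖ ^ 2) ^ (1 + 2 / ((m + 2 : ℕ) : ℝ))) ∧
    K * ∫ x, (∑ n, ‖u n x‖ ^ 2) ^ (1 + 2 / ((m + 2 : ℕ) : ℝ)) ≤
      ∑ n, ∑ k, ∫ x, ‖pder k (u n) x‖ ^ 2

/-- The kinetic inequality with the constant `K` for all systems in dimension `m + 2` with planar
angular momenta in `M`. -/
def Bound (m : ℕ) (M : Set ℤ) (K : ℝ) : Prop :=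
  ∀ (N : ℕ) (u : Fin N → (Fin (m + 2) → ℝ) → ℂ), System u → (∀ n, HasMomentaIn M (u n)) →
    Inequality u K

/-- The semiclassical constant `d / (d + 2) * (2π)² / ω_d ^ (2 / d)`. -/
noncomputable def Kcl (d : ℕ) : ℝ :=
  d / (d + 2) * ((2 * Real.pi) ^ 2 /
    (volume (Metric.ball (0 : EuclideanSpace ℝ (Fin d)) 1)).toReal ^ ((2 : ℝ) / d))

/-- For `S = A` and for `S = -A`: every `k` satisfies `#{a ∈ S : k - a ∈ M} + #{a ∈ S : -k - a ∈ M} ≤ G`. -/
def Separates (M : Set ℤ) (A : Finset ℤ) (G : ℕ) : Prop :=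
  ∀ k : ℤ, {a | a ∈ A ∧ k - a ∈ M}.ncard + {a | a ∈ A ∧ -k - a ∈ M}.ncard ≤ G ∧
    {a | a ∈ A ∧ k + a ∈ M}.ncard + {a | a ∈ A ∧ -k + a ∈ M}.ncard ≤ G

theorem ncard_eq (A : Finset ℤ) (P : ℤ → Prop) [DecidablePred P] :
    {a | a ∈ A ∧ P a}.ncard = (A.filter P).card := by
  rw [← Set.ncard_coe_finset, Finset.coe_filter]

open Classical in
theorem separates_iff {M : Set ℤ} {A : Finset ℤ} {G : ℕ} : Separates M A G ↔
    ∀ k : ℤ, (A.filter fun a => k - a ∈ M).card + (A.filter fun a => -k - a ∈ M).card ≤ G ∧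
    (A.filter fun a => k + a ∈ M).card + (A.filter fun a => -k + a ∈ M).card ≤ G := by
  unfold Separates
  simp only [ncard_eq]

/-- `1 + σ / μ²`, where `σ` is the mean of `a²` over `A`. -/
noncomputable def cost (A : Finset ℤ) (μ : ℝ) : ℝ :=
  1 + (∑ a ∈ A, (a : ℝ) ^ 2) / (A.card * μ ^ 2)

open Pool.Agent.K7.H21.LT in
theorem toSys {m N : ℕ} {u : Fin N → (Fin (m + 2) → ℝ) → ℂ} (hu : System u) {M : Set ℤ}
    (hM : ∀ n, HasMomentaIn M (u n)) : Sys M u :=
  ⟨hu.smooth, fun n x hx k hk => hM n x hx k hk, hu.sq, hu.grad_sq, hu.orthonormal⟩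

open Pool.Agent.K7.H21.LT in
theorem general (m : ℕ) (M : Set ℤ) (A : Finset ℤ) (G : ℕ) (μ : ℝ) (hA : A.Nonempty) (hG : 0 < G)
    (hμ : 0 < μ) (hM : ∀ k ∈ M, μ ≤ |(k : ℝ)|) (hS : Separates M A G) :
    Bound m M ((3 * (A.card : ℝ) ^ 2 / ((G : ℝ) ^ 2 * cost A μ ^ 2)) ^ (1 / ((m + 2 : ℕ) : ℝ)) *
      Kcl (m + 2)) := by
  classical
  intro N u hu hm
  rw [separates_iff] at hS
  have h1 : Sep M A G := by
    intro k
    convert (hS k).1
  have h2 : Sep M (A.map (Equiv.neg ℤ).toEmbedding) G := by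
    intro k
    have e : ∀ j : ℤ, ((A.map (Equiv.neg ℤ).toEmbedding).filter fun a => j - a ∈ M).card =
        (A.filter fun a => j + a ∈ M).card := by
      intro j
      rw [Finset.filter_map, Finset.card_map]
      congr 1
      refine Finset.filter_congr fun a _ => ?_
      simp [sub_neg_eq_add]
    have h := (hS k).2
    rw [← e k, ← e (-k)] at h
    convert h
  exact main (toSys hu hm) hμ hM hA hG h1 h2

theorem Kcl_nonneg (d : ℕ) : 0 ≤ Kcl d := by
  unfold Kcl
  positivity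

theorem Bound.mono {m : ℕ} {M : Set ℤ} {K K' : ℝ} (h : K' ≤ K) (hK : Bound m M K) :
    Bound m M K' := by
  intro N u hu hm
  obtain ⟨h1, h2⟩ := hK N u hu hm
  refine ⟨h1, le_trans (mul_le_mul_of_nonneg_right h ?_) h2⟩
  exact integral_nonneg fun x => Real.rpow_nonneg (Finset.sum_nonneg fun n _ => sq_nonneg _) _

theorem one_le_of_mem {M : Set ℤ} (h0 : (0 : ℤ) ∉ M) : ∀ k ∈ M, (1 : ℝ) ≤ |(k : ℝ)| := by
  intro k hk
  have hne : k ≠ 0 := fun h => h0 (h ▸ hk)
  have h1 : 1 ≤ |k| := Int.one_le_abs hne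
  calc (1 : ℝ) = ((1 : ℤ) : ℝ) := by simp
    _ ≤ ((|k| : ℤ) : ℝ) := by exact_mod_cast h1
    _ = |(k : ℝ)| := Int.cast_abs

theorem card_pair_le {P : ℤ → Prop} [DecidablePred P] (h : ¬ (P 0 ∧ P 1)) :
    (({0, 1} : Finset ℤ).filter P).card ≤ 1 := by
  rw [Finset.card_le_one]
  intro a ha b hb
  rw [Finset.mem_filter, Finset.mem_insert, Finset.mem_singleton] at ha hb
  obtain ⟨rfl | rfl, ha⟩ := ha <;> obtain ⟨rfl | rfl, hb⟩ := hb
  · rfl
  · exact absurd ⟨ha, hb⟩ h
  · exact absurd ⟨hb, ha⟩ h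
  · rfl

/-- the sets without consecutive integers -/
theorem gaps (m : ℕ) (M : Set ℤ) (h0 : (0 : ℤ) ∉ M) (h1 : ∀ k ∈ M, k + 1 ∉ M) :
    Bound m M ((4 / 3 : ℝ) ^ (1 / ((m + 2 : ℕ) : ℝ)) * Kcl (m + 2)) := by
  classical
  have hS : Separates M {0, 1} 2 := by
    rw [separates_iff]
    intro k
    have e1 : ∀ j : ℤ, (({0, 1} : Finset ℤ).filter fun a => j - a ∈ M).card ≤ 1 := by
      intro j
      refine card_pair_le fun h => ?_
      have := h1 _ h.2
      rw [sub_add_cancel] at this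
      exact this (by simpa using h.1)
    have e2 : ∀ j : ℤ, (({0, 1} : Finset ℤ).filter fun a => j + a ∈ M).card ≤ 1 := by
      intro j
      refine card_pair_le fun h => ?_
      have h2 : j ∈ M := by simpa using h.1
      exact h1 _ h2 h.2
    have a1 := e1 k
    have a2 := e1 (-k)
    have a3 := e2 k
    have a4 := e2 (-k)
    constructor
    · convert (show _ ≤ 2 from (by linarith : (({0, 1} : Finset ℤ).filter fun a => k - a ∈ M).card +
        (({0, 1} : Finset ℤ).filter fun a => -k - a ∈ M).card ≤ 2))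
    · convert (show _ ≤ 2 from (by linarith : (({0, 1} : Finset ℤ).filter fun a => k + a ∈ M).card +
        (({0, 1} : Finset ℤ).filter fun a => -k + a ∈ M).card ≤ 2))
  have h := general m M {0, 1} 2 1 (by simp) (by norm_num) one_pos (one_le_of_mem h0) hS
  have hc : cost {0, 1} 1 = 3 / 2 := by
    unfold cost
    norm_num
  rw [hc] at h
  convert h using 3
  norm_num

/-- the sets disjoint from their negatives -/
theorem onesided (m : ℕ) (M : Set ℤ) (h1 : ∀ k ∈ M, -k ∉ M) :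
    Bound m M ((3 : ℝ) ^ (1 / ((m + 2 : ℕ) : ℝ)) * Kcl (m + 2)) := by
  classical
  have h0 : (0 : ℤ) ∉ M := fun h => h1 0 h (by simpa using h)
  have hS : Separates M {0} 1 := by
    rw [separates_iff]
    intro k
    have e : ∀ P : ℤ → Prop, ∀ _ : DecidablePred P, (({0} : Finset ℤ).filter P).card =
        if P 0 then 1 else 0 := by
      intro P _
      rw [Finset.filter_singleton]
      split_ifs <;> simp
    rw [e, e, e, e]
    simp only [sub_zero, add_zero]
    by_cases hk : k ∈ M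
    · have := h1 k hk
      simp [hk, this]
    · simp only [hk, if_false, zero_add]
      split_ifs <;> simp
  have h := general m M {0} 1 1 (by simp) (by norm_num) one_pos (one_le_of_mem h0) hS
  have hc : cost {0} 1 = 1 := by
    unfold cost
    norm_num
  rw [hc] at h
  convert h using 3
  norm_num

/-- functions which are odd under the half turn -/
theorem momenta_of_odd {m : ℕ} {u : (Fin (m + 2) → ℝ) → ℂ}
    (h : ∀ x ∈ OffAxis m, u (rot Real.pi x) = - u x) : HasMomentaIn {k | Odd k} u := by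
  intro x hx k hk
  have hk' : Even k := by
    rw [← Int.not_odd_iff_even]
    exact hk
  obtain ⟨j, rfl⟩ := hk'
  set f : ℝ → ℂ := fun θ => Complex.exp (-(((j + j : ℤ) : ℂ) * θ * Complex.I)) * u (rot θ x) with hf
  have hrot : ∀ θ, rot (θ + Real.pi) x = rot Real.pi (rot θ x) := by
    intro θ
    funext i
    by_cases h0 : i = 0
    · subst h0
      simp [rot]
      ring
    by_cases h1 : i = 1
    · subst h1
      simp [rot]
      ring
    simp [rot, h0, h1]
  have hmem : ∀ θ, rot θ x ∈ OffAxis m := fun θ => Pool.Agent.K7.H21.LT.rot_mem.2 hx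
  have hshift : ∀ θ, f (θ + Real.pi) = - f θ := by
    intro θ
    simp only [hf]
    rw [hrot, h _ (hmem θ)]
    have e : Complex.exp (-(((j + j : ℤ) : ℂ) * ((θ + Real.pi : ℝ) : ℂ) * Complex.I)) =
        Complex.exp (-(((j + j : ℤ) : ℂ) * θ * Complex.I)) := by
      rw [Complex.exp_eq_exp_iff_exists_int]
      refine ⟨-j, ?_⟩
      push_cast
      ring
    rw [e, mul_neg]
  have hper : Function.Periodic f (2 * Real.pi) := by
    intro θ
    have h1 : θ + 2 * Real.pi = (θ + Real.pi) + Real.pi := by ring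
    rw [h1, hshift, hshift, neg_neg]
  have h1 : ∫ θ in (0 : ℝ)..(2 * Real.pi), f (θ + Real.pi) = ∫ θ in (0 : ℝ)..(2 * Real.pi), f θ := by
    rw [intervalIntegral.integral_comp_add_right]
    have h2 := hper.intervalIntegral_add_eq Real.pi 0
    rw [zero_add] at h2 ⊢
    rw [← h2, add_comm]
  simp only [hshift] at h1
  rw [intervalIntegral.integral_neg] at h1
  have h2 : (2 : ℂ) * ∫ θ in (0 : ℝ)..(2 * Real.pi), f θ = 0 := by
    linear_combination (-1 : ℂ) * h1
  exact (mul_eq_zero.1 h2).resolve_left two_ne_zero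

theorem sum_sq_Icc (b : ℕ) :
    ∑ a ∈ Finset.Icc (-(b : ℤ)) b, (a : ℝ) ^ 2 = (2 * b + 1) * (b * (b + 1)) / 3 := by
  induction b with
  | zero => simp
  | succ b ih =>
    have e : Finset.Icc (-((b + 1 : ℕ) : ℤ)) ((b + 1 : ℕ) : ℤ) =
        insert (-((b + 1 : ℕ) : ℤ)) (insert ((b + 1 : ℕ) : ℤ) (Finset.Icc (-(b : ℤ)) b)) := by
      ext a
      simp only [Finset.mem_Icc, Finset.mem_insert]
      push_cast
      omega
    rw [e, Finset.sum_insert, Finset.sum_insert, ih]
    · push_cast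
      ring
    · simp only [Finset.mem_Icc]
      push_cast
      omega
    · simp only [Finset.mem_insert, Finset.mem_Icc]
      push_cast
      omega

/-- sets with few elements in the intervals of `2 b + 1` integers -/
theorem windows (m : ℕ) (M : Set ℤ) (b g : ℕ) (μ : ℝ) (hg : 0 < g) (hμ : 0 < μ)
    (hM : ∀ k ∈ M, μ ≤ |(k : ℝ)|) (hw' : ∀ k : ℤ, (M ∩ Set.Icc (k - b) (k + b)).ncard ≤ g) :
    Bound m M ((3 * (2 * b + 1) ^ 2 / (4 * (g * (1 + b * (b + 1) / (3 * μ ^ 2))) ^ 2)) ^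
      (1 / ((m + 2 : ℕ) : ℝ)) * Kcl (m + 2)) := by
  classical
  have hw : ∀ k : ℤ, ((Finset.Icc (k - b) (k + b)).filter fun j => j ∈ M).card ≤ g := by
    intro k
    refine le_trans (le_of_eq ?_) (hw' k)
    rw [← Set.ncard_coe_finset, Finset.coe_filter]
    congr 1
    ext j
    simp only [Finset.mem_Icc, Set.mem_inter_iff, Set.mem_Icc]
    exact and_comm
  have e1 : ∀ k : ℤ, ((Finset.Icc (-(b : ℤ)) b).filter fun a => k - a ∈ M).card ≤ g := by
    intro k
    refine le_trans (le_of_eq ?_) (hw k)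
    refine Finset.card_bij' (fun a _ => k - a) (fun j _ => k - j) ?_ ?_ ?_ ?_
    · intro a ha
      rw [Finset.mem_filter, Finset.mem_Icc] at ha ⊢
      exact ⟨by constructor <;> linarith [ha.1.1, ha.1.2], ha.2⟩
    · intro j hj
      rw [Finset.mem_filter, Finset.mem_Icc] at hj ⊢
      refine ⟨by constructor <;> linarith [hj.1.1, hj.1.2], ?_⟩
      rw [sub_sub_cancel]
      exact hj.2
    · intro a _
      simp
    · intro j _
      simp
  have e2 : ∀ k : ℤ, ((Finset.Icc (-(b : ℤ)) b).filter fun a => k + a ∈ M).card ≤ g := by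
    intro k
    refine le_trans (le_of_eq ?_) (hw k)
    refine Finset.card_bij' (fun a _ => k + a) (fun j _ => j - k) ?_ ?_ ?_ ?_
    · intro a ha
      rw [Finset.mem_filter, Finset.mem_Icc] at ha ⊢
      exact ⟨by constructor <;> linarith [ha.1.1, ha.1.2], ha.2⟩
    · intro j hj
      rw [Finset.mem_filter, Finset.mem_Icc] at hj ⊢
      refine ⟨by constructor <;> linarith [hj.1.1, hj.1.2], ?_⟩
      rw [add_sub_cancel]
      exact hj.2
    · intro a _
      simp
    · intro j _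
      simp
  have hS : Separates M (Finset.Icc (-(b : ℤ)) b) (2 * g) := separates_iff.2 fun k =>
    ⟨by linarith [e1 k, e1 (-k)], by linarith [e2 k, e2 (-k)]⟩
  have h := general m M _ (2 * g) μ ⟨0, by simp⟩ (by omega) hμ hM hS
  have hcard : ((Finset.Icc (-(b : ℤ)) b).card : ℝ) = 2 * b + 1 := by
    rw [Int.card_Icc]
    have : ((b : ℤ) + 1 - -(b : ℤ)).toNat = 2 * b + 1 := by omega
    rw [this]
    push_cast
    ring
  have hc : cost (Finset.Icc (-(b : ℤ)) b) μ = 1 + b * (b + 1) / (3 * μ ^ 2) := by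
    unfold cost
    rw [sum_sq_Icc, hcard]
    have : (0 : ℝ) < 2 * b + 1 := by positivity
    field_simp
  rw [hc, hcard] at h
  convert h using 3
  push_cast
  ring

theorem asymptotic (m : ℕ) (M : Set ℤ) (b g : ℕ) (hg : 0 < g)
    (hbg : 4 * g ^ 2 < 3 * (2 * b + 1) ^ 2)
    (hw : ∀ k : ℤ, (M ∩ Set.Icc (k - b) (k + b)).ncard ≤ g) :
    ∃ μ : ℝ, Bound m (M ∩ {k | μ ≤ |(k : ℝ)|}) (Kcl (m + 2)) := by
  have hgp : (0 : ℝ) < g := by exact_mod_cast hg
  set R : ℝ := 3 * (2 * b + 1) ^ 2 / (4 * (g : ℝ) ^ 2) with hR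
  have hR1 : 1 < R := by
    rw [hR, lt_div_iff₀ (by positivity), one_mul]
    exact_mod_cast hbg
  set t : ℝ := √R with ht
  have ht1 : 1 < t := by
    rw [ht, Real.lt_sqrt (by norm_num)]
    simpa using hR1
  have ht2 : t ^ 2 = R := Real.sq_sqrt (by linarith)
  set μ : ℝ := √(b * (b + 1) / (3 * (t - 1))) + 1 with hμ
  have hs0 : 0 ≤ √(b * (b + 1) / (3 * (t - 1))) := Real.sqrt_nonneg _
  have hμ0 : 0 < μ := by linarith
  have ht0 : 0 < t - 1 := by linarith
  have h1 : b * (b + 1) / (3 * (t - 1)) ≤ μ ^ 2 := by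
    have h2 : (√(b * (b + 1) / (3 * (t - 1)))) ^ 2 = b * (b + 1) / (3 * (t - 1)) :=
      Real.sq_sqrt (by positivity)
    rw [← h2, hμ]
    exact pow_le_pow_left₀ hs0 (by linarith) 2
  have h2 : b * (b + 1) / (3 * μ ^ 2) ≤ t - 1 := by
    rw [div_le_iff₀ (by positivity)] at h1 ⊢
    linarith
  refine ⟨μ, ?_⟩
  have hw' : ∀ k : ℤ, ((M ∩ {k | μ ≤ |(k : ℝ)|}) ∩ Set.Icc (k - b) (k + b)).ncard ≤ g := by
    intro k
    refine (Set.ncard_le_ncard ?_ ?_).trans (hw k)
    · intro j hj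
      exact ⟨hj.1.1, hj.2⟩
    · exact (Set.finite_Icc _ _).subset Set.inter_subset_right
  refine (windows m _ b g μ hg hμ0 (fun k hk => hk.2) hw').mono ?_
  have hc0 : 0 < 1 + b * (b + 1) / (3 * μ ^ 2) := by positivity
  have h3 : 1 ≤ 3 * (2 * b + 1) ^ 2 / (4 * (g * (1 + b * (b + 1) / (3 * μ ^ 2))) ^ 2) := by
    have e : 3 * (2 * (b : ℝ) + 1) ^ 2 / (4 * (g * (1 + b * (b + 1) / (3 * μ ^ 2))) ^ 2) =
        R / (1 + b * (b + 1) / (3 * μ ^ 2)) ^ 2 := by
      rw [hR, mul_pow, ← mul_assoc, div_div]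
    rw [e, one_le_div (by positivity), ← ht2]
    exact pow_le_pow_left₀ hc0.le (by linarith) 2
  have h4 := Real.one_le_rpow h3 (z := 1 / ((m + 2 : ℕ) : ℝ)) (by positivity)
  exact le_mul_of_one_le_left (Kcl_nonneg _) h4

/-- **The kinetic inequality for systems with gaps in the planar angular momenta.** The dimension is
`d = m + 2 ≥ 2`; `Bound m M K`: the inequality with the constant `K` holds for all orthonormal
systems with angular momenta in `M` in the plane of the first two coordinates. -/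
theorem result :
    -- (1) `M` and a finite set `A` of shifts: the constant `(3 |A|² / (G² cost²))^(1/d) K_d^cl`
    (∀ (m : ℕ) (M : Set ℤ) (A : Finset ℤ) (G : ℕ) (μ : ℝ), A.Nonempty → 0 < G → 0 < μ →
      (∀ k ∈ M, μ ≤ |(k : ℝ)|) → Separates M A G →
      Bound m M ((3 * (A.card : ℝ) ^ 2 / ((G : ℝ) ^ 2 * cost A μ ^ 2)) ^
        (1 / ((m + 2 : ℕ) : ℝ)) * Kcl (m + 2))) ∧
    -- (2) nonzero integers without consecutive elements: the constant `(4/3)^(1/d) K_d^cl`
    (∀ (m : ℕ) (M : Set ℤ), (0 : ℤ) ∉ M → (∀ k ∈ M, k + 1 ∉ M) →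
      Bound m M ((4 / 3 : ℝ) ^ (1 / ((m + 2 : ℕ) : ℝ)) * Kcl (m + 2))) ∧
    -- (3) in particular the systems which are odd under the rotation by `π` in a plane
    (∀ (m N : ℕ) (u : Fin N → (Fin (m + 2) → ℝ) → ℂ), System u →
      (∀ n, ∀ x ∈ OffAxis m, u n (rot Real.pi x) = - u n x) →
      Inequality u ((4 / 3 : ℝ) ^ (1 / ((m + 2 : ℕ) : ℝ)) * Kcl (m + 2))) ∧
    -- (4) `M` disjoint from `-M`: the constant `3^(1/d) K_d^cl`
    (∀ (m : ℕ) (M : Set ℤ), (∀ k ∈ M, -k ∉ M) →
      Bound m M ((3 : ℝ) ^ (1 / ((m + 2 : ℕ) : ℝ)) * Kcl (m + 2))) ∧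
    -- (5) at most `g` elements in every interval of `q = 2 b + 1` integers, `|k| ≥ μ` on `M`
    (∀ (m : ℕ) (M : Set ℤ) (b g : ℕ) (μ : ℝ), 0 < g → 0 < μ → (∀ k ∈ M, μ ≤ |(k : ℝ)|) →
      (∀ k : ℤ, (M ∩ Set.Icc (k - b) (k + b)).ncard ≤ g) →
      Bound m M ((3 * (2 * b + 1) ^ 2 / (4 * (g * (1 + b * (b + 1) / (3 * μ ^ 2))) ^ 2)) ^
        (1 / ((m + 2 : ℕ) : ℝ)) * Kcl (m + 2))) ∧
    -- (6) hence the semiclassical constant for the large elements of `M`, if `2 g < √3 q`
    (∀ (m : ℕ) (M : Set ℤ) (b g : ℕ), 0 < g → 4 * g ^ 2 < 3 * (2 * b + 1) ^ 2 →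
      (∀ k : ℤ, (M ∩ Set.Icc (k - b) (k + b)).ncard ≤ g) →
      ∃ μ : ℝ, Bound m (M ∩ {k | μ ≤ |(k : ℝ)|}) (Kcl (m + 2))) := by
  refine ⟨general, gaps, fun m N u hu hodd => ?_, onesided, windows, asymptotic⟩
  refine gaps m {k | Odd k} (by simp) (fun k hk => ?_) N u hu fun n => momenta_of_odd (hodd n)
  have hk' : Odd k := hk
  show ¬ Odd (k + 1)
  rw [Int.not_odd_iff_even]
  exact hk'.add_one

end Pool.Agent.Results.MP_cfe56d_mp.PlanarMomenta
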