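import Pool.Agent.K7.H84.RD.Fn2

/-!
# The Lieb-Thirring kinetic inequality with the semiclassical constant for densities radial in six variables

Write `ℝ^d = ℝ^n × ℝ^m`, `x = (y, z)`, with `n ≥ 6` and `m ≥ 0`. The conjectured inequality
`∑ ∫ |∇u_i|² ≥ K_d^cl ∫ ρ^(1+2/d)` holds for all orthonormal systems in `H¹(ℝ^d; ℂ)` whose density
`ρ = ∑ |u_i|²` is (almost everywhere) a function of `|y|` and `z`; in particular, for `d ≥ 6`, for all systems with a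
radial density. Also the dual inequality: for all orthonormal systems in `H¹(ℝ^d; ℂ)` and all potentials
`-W(|y|², z)`, `W ≥ 0`, the sum of the energies is at least `- L_d^cl ∫ W^(1+d/2)`, with the semiclassical constant.

Method: in the coordinates `t = log |y|`, `z` the spherical harmonics of degree `l` carry the centrifugal eigenvalue
`μ_l² = (l + (n - 2) / 2)²` with respect to the unweighted norm, while the Gram matrix belongs to the weight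
`e^(2t)`. For the pencil of the two forms the sums over the degrees are compared with integrals: the multiplicities
`d_l` of the spherical harmonics satisfy `∑_{l<j} d_l μ_l² ≥ ` the corresponding semiclassical integral if `n ≥ 6`
(this fails for `n ≤ 5`). This reduces the problem to bounds for the Riesz means of order `g = (n - 1) / 2 ≥ 5 / 2`
of a Schrödinger operator on `ℝ^(1+m)`, which are known with the semiclassical constants (Laptev-Weidl,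
Aizenman-Lieb).
-/

set_option autoImplicit false

open MeasureTheory

namespace Pool.Agent.Results.MP_cfe56d_mp.RadialDensity

/-- The partial derivative `∂_k φ` of a function on `ℝ^d`. -/
noncomputable def pder {d : ℕ} (k : Fin d) (φ : (Fin d → ℝ) → ℝ) (x : Fin d → ℝ) : ℝ :=
  fderiv ℝ φ x (Pi.single k 1)

/-- `u` belongs to the Sobolev space `H¹(ℝ^d; ℂ)` and has the weak partial derivatives `g k`:
`u` and all `g k` are in `L²(ℝ^d)`, and `∫ u ∂_k φ = - ∫ g_k φ` for every real test function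
`φ ∈ C_c^∞(ℝ^d)`. -/
structure IsSobolev {d : ℕ} (u : (Fin d → ℝ) → ℂ) (g : Fin d → (Fin d → ℝ) → ℂ) : Prop where
  memLp : MemLp u 2 volume
  memLp_deriv : ∀ k, MemLp (g k) 2 volume
  weak : ∀ k (φ : (Fin d → ℝ) → ℝ), ContDiff ℝ (⊤ : ℕ∞) φ → HasCompactSupport φ →
    ∫ x, u x * (pder k φ x : ℂ) = - ∫ x, g k x * (φ x : ℂ)

/-- The semiclassical constant `d / (d + 2) * (2π)² / ω_d ^ (2 / d)` of the kinetic inequality. -/
noncomputable def Kcl (d : ℕ) : ℝ :=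
  d / (d + 2) * ((2 * Real.pi) ^ 2 /
    (volume (Metric.ball (0 : EuclideanSpace ℝ (Fin d)) 1)).toReal ^ ((2 : ℝ) / d))

/-- The semiclassical constant `2 / (d + 2) * ω_d / (2π) ^ d` for the sums of the negative eigenvalues. -/
noncomputable def Lcl (d : ℕ) : ℝ :=
  2 / (d + 2) * ((volume (Metric.ball (0 : EuclideanSpace ℝ (Fin d)) 1)).toReal / (2 * Real.pi) ^ d)

/-- `|y|²` for `x = (y, z) ∈ ℝ^n × ℝ^m`. -/
noncomputable def ysq (n m : ℕ) (x : Fin (n + m) → ℝ) : ℝ := ∑ i : Fin n, x (Fin.castAdd m i) ^ 2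

/-- `z` for `x = (y, z) ∈ ℝ^n × ℝ^m`. -/
def zpart (n m : ℕ) (x : Fin (n + m) → ℝ) : Fin m → ℝ := fun i => x (Fin.natAdd n i)

/-- Let `n ≥ 6`, `m ≥ 0`, `d = n + m`, and let `u_1, …, u_N ∈ H¹(ℝ^d; ℂ)` be `L²`-orthonormal, with the
density `ρ = ∑ |u_i|²`.
(1) If `ρ` is almost everywhere a function of `|y|²` and `z`, then `ρ ^ (1 + 2 / d)` is integrable and
`K_d^cl ∫ ρ ^ (1 + 2 / d) ≤ ∑ ∫ |∇ u_i|²`.
(2) For every measurable `W(|y|², z) ≥ 0` such that `W ^ (1 + d / 2)` is integrable, `W ρ` is integrable and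
`- L_d^cl ∫ W ^ (1 + d / 2) ≤ ∑ ∫ |∇ u_i|² - ∫ W ρ`. -/
theorem result (n m : ℕ) (hn : 6 ≤ n) (N : ℕ) (u : Fin N → (Fin (n + m) → ℝ) → ℂ)
    (g : Fin N → Fin (n + m) → (Fin (n + m) → ℝ) → ℂ) (hu : ∀ i, IsSobolev (u i) (g i))
    (ho : ∀ i j, ∫ x, (starRingEnd ℂ) (u i x) * u j x = if i = j then 1 else 0) :
    (∀ F : ℝ → (Fin m → ℝ) → ℝ, (∀ᵐ x, ∑ i, ‖u i x‖ ^ 2 = F (ysq n m x) (zpart n m x)) →
      Integrable (fun x => (∑ i, ‖u i x‖ ^ 2) ^ (1 + 2 / ((n + m : ℕ) : ℝ))) ∧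
      Kcl (n + m) * ∫ x, (∑ i, ‖u i x‖ ^ 2) ^ (1 + 2 / ((n + m : ℕ) : ℝ)) ≤
        ∑ i, ∑ k, ∫ x, ‖g i k x‖ ^ 2) ∧
    (∀ W : ℝ → (Fin m → ℝ) → ℝ, Measurable (fun p : ℝ × (Fin m → ℝ) => W p.1 p.2) →
      (∀ s z, 0 ≤ W s z) →
      Integrable (fun x => W (ysq n m x) (zpart n m x) ^ (1 + ((n + m : ℕ) : ℝ) / 2)) →
      Integrable (fun x => W (ysq n m x) (zpart n m x) * ∑ i, ‖u i x‖ ^ 2) ∧
      -(Lcl (n + m) * ∫ x, W (ysq n m x) (zpart n m x) ^ (1 + ((n + m : ℕ) : ℝ) / 2)) ≤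
        (∑ i, ∑ k, ∫ x, ‖g i k x‖ ^ 2) -
          ∫ x, W (ysq n m x) (zpart n m x) * ∑ i, ‖u i x‖ ^ 2) := by
  obtain ⟨n₀, rfl⟩ : ∃ n₀, n = n₀ + 2 + 1 := ⟨n - 3, by omega⟩
  have hn₀ : 3 ≤ n₀ := by omega
  have hS : ∀ i, LTd.WGradC (u i) (g i) := fun i => ⟨(hu i).1, (hu i).2, (hu i).3⟩
  set T : ℝ := ∑ i, ∑ k, ∫ x, ‖g i k x‖ ^ 2 with hT
  have hT0 : 0 ≤ T := Finset.sum_nonneg fun i _ => Finset.sum_nonneg fun k _ =>
    integral_nonneg fun x => sq_nonneg _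
  have hmain := Pool.Agent.K7.H84.RD.h1_phiC (m := m) hn₀ hS ho
  rw [← hT] at hmain
  have hρ : AEMeasurable fun x => ∑ i, ‖u i x‖ ^ 2 := by
    have h1 : ∀ i, AEStronglyMeasurable (u i) volume := fun i => (hu i).1.1
    exact Finset.aemeasurable_fun_sum _ fun i _ => (h1 i).norm.aemeasurable.pow_const 2
  have hρ0 : ∀ x, 0 ≤ ∑ i, ‖u i x‖ ^ 2 := fun x => Finset.sum_nonneg fun i _ => sq_nonneg _
  constructor
  · intro F hF
    have hK : 0 < Kcl (n₀ + 2 + 1 + m) := Pool.Agent.K7.H84.RD.Kcl_pos (by omega)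
    have h : ∫⁻ x, ENNReal.ofReal (∑ i, ‖u i x‖ ^ 2) ^ (1 + 2 / ((n₀ + 2 + 1 + m : ℕ) : ℝ)) ≤
        ENNReal.ofReal (T / Kcl (n₀ + 2 + 1 + m)) := Pool.Agent.K7.H84.RD.dens_rad hρ hF hmain
    have hp : 0 < 1 + 2 / ((n₀ + 2 + 1 + m : ℕ) : ℝ) := Pool.Agent.K7.H84.RD.pw_pos n₀ m
    have hnn : ∀ x, 0 ≤ (∑ i, ‖u i x‖ ^ 2) ^ (1 + 2 / ((n₀ + 2 + 1 + m : ℕ) : ℝ)) := fun x =>
      Real.rpow_nonneg (hρ0 x) _
    have hm : AEStronglyMeasurable (fun x => (∑ i, ‖u i x‖ ^ 2) ^ (1 + 2 / ((n₀ + 2 + 1 + m : ℕ) : ℝ))) volume :=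
      (hρ.pow_const _).aestronglyMeasurable
    have h1 : ∫⁻ x, ENNReal.ofReal ((∑ i, ‖u i x‖ ^ 2) ^ (1 + 2 / ((n₀ + 2 + 1 + m : ℕ) : ℝ))) ≤
        ENNReal.ofReal (T / Kcl (n₀ + 2 + 1 + m)) := by
      refine le_trans (le_of_eq ?_) h
      refine lintegral_congr fun x => ?_
      rw [ENNReal.ofReal_rpow_of_nonneg (hρ0 x) hp.le]
    refine ⟨⟨hm, ?_⟩, ?_⟩
    · rw [hasFiniteIntegral_iff_ofReal (ae_of_all _ hnn)]
      exact lt_of_le_of_lt h1 ENNReal.ofReal_lt_top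
    · rw [← le_div_iff₀' hK, integral_eq_lintegral_of_nonneg_ae (ae_of_all _ hnn) hm]
      exact ENNReal.toReal_le_of_le_ofReal (by positivity) h1
  · intro W hW hW0 hWi
    have h : ∫⁻ x, ENNReal.ofReal (W (ysq (n₀ + 2 + 1) m x) (zpart (n₀ + 2 + 1) m x) * ∑ i, ‖u i x‖ ^ 2) ≤
        ENNReal.ofReal (T + Lcl (n₀ + 2 + 1 + m) * ∫ x, W (ysq (n₀ + 2 + 1) m x) (zpart (n₀ + 2 + 1) m x) ^
          (1 + ((n₀ + 2 + 1 + m : ℕ) : ℝ) / 2)) :=
      Pool.Agent.K7.H84.RD.pot_rad (n := n₀) (m := m) hρ hW hW0 hWi hT0 hmain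
    have hsm : Measurable (ysq (n₀ + 2 + 1) m) :=
      Finset.measurable_fun_sum _ fun i _ => (measurable_pi_apply _).pow_const 2
    have hlm : Measurable (zpart (n₀ + 2 + 1) m) := measurable_pi_lambda _ fun i => measurable_pi_apply _
    have hWm : Measurable fun x : Fin (n₀ + 2 + 1 + m) → ℝ => W (ysq (n₀ + 2 + 1) m x) (zpart (n₀ + 2 + 1) m x) :=
      hW.comp (hsm.prodMk hlm)
    have hm : AEStronglyMeasurable (fun x => W (ysq (n₀ + 2 + 1) m x) (zpart (n₀ + 2 + 1) m x) *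
        ∑ i, ‖u i x‖ ^ 2) volume := (hWm.aemeasurable.mul hρ).aestronglyMeasurable
    have hnn : ∀ x, 0 ≤ W (ysq (n₀ + 2 + 1) m x) (zpart (n₀ + 2 + 1) m x) * ∑ i, ‖u i x‖ ^ 2 := fun x =>
      mul_nonneg (hW0 _ _) (hρ0 x)
    have hL : 0 ≤ Lcl (n₀ + 2 + 1 + m) := by
      unfold Lcl
      positivity
    have hA : 0 ≤ ∫ x, W (ysq (n₀ + 2 + 1) m x) (zpart (n₀ + 2 + 1) m x) ^
        (1 + ((n₀ + 2 + 1 + m : ℕ) : ℝ) / 2) := integral_nonneg fun x => Real.rpow_nonneg (hW0 _ _) _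
    refine ⟨⟨hm, ?_⟩, ?_⟩
    · rw [hasFiniteIntegral_iff_ofReal (ae_of_all _ hnn)]
      exact lt_of_le_of_lt h ENNReal.ofReal_lt_top
    · have h2 : ∫ x, W (ysq (n₀ + 2 + 1) m x) (zpart (n₀ + 2 + 1) m x) * ∑ i, ‖u i x‖ ^ 2 ≤
          T + Lcl (n₀ + 2 + 1 + m) * ∫ x, W (ysq (n₀ + 2 + 1) m x) (zpart (n₀ + 2 + 1) m x) ^
            (1 + ((n₀ + 2 + 1 + m : ℕ) : ℝ) / 2) := by
        rw [integral_eq_lintegral_of_nonneg_ae (ae_of_all _ hnn) hm]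
        exact ENNReal.toReal_le_of_le_ofReal (by positivity) h
      linarith

end Pool.Agent.Results.MP_cfe56d_mp.RadialDensity
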